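import Pool.Agent.Lib.MP_b900b7_co.Transfer

set_option autoImplicit false

namespace Pool.Agent.Results.MP_b900b7_co.TwentyFive

/-- Euclidean 3-space. -/
abbrev E3 : Type := EuclideanSpace ℝ (Fin 3)

/-- A convex body: a compact convex set with nonempty interior. -/
def IsConvexBody (C : Set E3) : Prop := IsCompact C ∧ Convex ℝ C ∧ (interior C).Nonempty

/-- The translate `C + t`. -/
def translate (C : Set E3) (t : E3) : Set E3 := {y | ∃ x ∈ C, y = x + t}

/-- The family of translates `C + t i` is a packing: the interiors are pairwise disjoint. -/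
def IsPacking {I : Type} (C : Set E3) (t : I → E3) : Prop :=
  ∀ i j : I, i ≠ j → interior (translate C (t i)) ∩ interior (translate C (t j)) = ∅

/-- Every member of the family meets at least `k` other members. -/
def HasNeighbors {I : Type} (k : ℕ) (C : Set E3) (t : I → E3) : Prop :=
  ∀ i : I, ∃ N : Finset I, k ≤ N.card ∧
    ∀ j ∈ N, j ≠ i ∧ (translate C (t i) ∩ translate C (t j)).Nonempty

/-- A parallelepiped: the image of the unit cube under an affine bijection of 3-space. -/
def IsParallelepiped (C : Set E3) : Prop :=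
  ∃ f : E3 ≃ᵃ[ℝ] E3, C = f '' {x | ∀ i, 0 ≤ x i ∧ x i ≤ 1}

theorem translate_eq (C : Set E3) (t : E3) : translate C t = (fun x => x + t) '' C := by
  ext y
  constructor
  · rintro ⟨x, hx, rfl⟩
    exact ⟨x, hx, rfl⟩
  · rintro ⟨x, hx, rfl⟩
    exact ⟨x, hx, rfl⟩

theorem interior_translate (C : Set E3) (t : E3) (h : (interior C).Nonempty) :
    (interior (translate C t)).Nonempty := by
  rw [translate_eq]
  have e := (Homeomorph.addRight t).image_interior C
  simp only [Homeomorph.coe_addRight] at e
  rw [← e]
  exact h.image _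

theorem result (C : Set E3) (hC : IsConvexBody C) (I : Type) [Nonempty I] (t : I → E3)
    (hp : IsPacking C t) (hn : HasNeighbors 25 C t) : IsParallelepiped C := by
  classical
  obtain ⟨hk, hc, hi⟩ := hC
  have hinj : Function.Injective t := by
    intro i j hij
    by_contra hne
    have h1 := hp i j hne
    rw [hij, Set.inter_self] at h1
    exact (interior_translate C (t j) hi).ne_empty h1
  obtain ⟨a, v, hv⟩ := Pool.Agent.Lib.MP_b900b7_co.final C hc hk hi (Set.range t)
    (Set.range_nonempty t)
    (by
      rintro _ ⟨i, rfl⟩ _ ⟨j, rfl⟩ hne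
      have h1 := hp i j (fun h => hne (by rw [h]))
      rw [translate_eq, translate_eq] at h1
      exact Set.disjoint_iff_inter_eq_empty.2 h1)
    (by
      rintro _ ⟨i, rfl⟩
      obtain ⟨N, hN, hN'⟩ := hn i
      have h1 : ((N.image t : Finset E3) : Set E3) ⊆ {s ∈ Set.range t | s ≠ t i ∧
          ((fun x => x + t i) '' C ∩ (fun x => x + s) '' C).Nonempty} := by
        intro s hs
        obtain ⟨j, hj, rfl⟩ := Finset.mem_image.1 (Finset.mem_coe.1 hs)
        obtain ⟨k1, k2⟩ := hN' j hj
        rw [translate_eq, translate_eq] at k2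
        exact ⟨⟨j, rfl⟩, fun h => k1 (hinj h), k2⟩
      refine le_trans ?_ (Set.encard_le_encard h1)
      rw [Set.encard_coe_eq_coe_finsetCard, Finset.card_image_of_injective _ hinj]
      exact_mod_cast hN)
  let L : E3 →ₗ[ℝ] E3 :=
    { toFun := fun x => ∑ i, x i • v i
      map_add' := fun x y => by simp [add_smul, Finset.sum_add_distrib]
      map_smul' := fun c x => by simp [Finset.smul_sum, mul_smul] }
  have hpar : parallelepiped v = L '' {x | ∀ i, 0 ≤ x i ∧ x i ≤ 1} := by
    ext y
    rw [mem_parallelepiped_iff]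
    constructor
    · rintro ⟨s, hs, rfl⟩
      exact ⟨WithLp.toLp 2 s, fun i => ⟨hs.1 i, hs.2 i⟩, rfl⟩
    · rintro ⟨x, hx, rfl⟩
      exact ⟨fun i => x i, ⟨fun i => (hx i).1, fun i => (hx i).2⟩, rfl⟩
  have hint : (interior (parallelepiped v)).Nonempty := by
    have e := (Homeomorph.addLeft a).image_interior (parallelepiped v)
    simp only [Homeomorph.coe_addLeft] at e
    rw [hv, ← e] at hi
    exact hi.of_image
  have hsurj : Function.Surjective L := by
    rw [← LinearMap.range_eq_top]
    apply Submodule.eq_top_of_nonempty_interior'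
    refine hint.mono (interior_mono ?_)
    rw [hpar]
    rintro _ ⟨x, _, rfl⟩
    exact ⟨x, rfl⟩
  have hbij : Function.Bijective L := ⟨LinearMap.injective_iff_surjective.2 hsurj, hsurj⟩
  refine ⟨(LinearEquiv.ofBijective L hbij).toAffineEquiv.trans (AffineEquiv.constVAdd ℝ E3 a), ?_⟩
  rw [hv, hpar, Set.image_image]
  rfl

end Pool.Agent.Results.MP_b900b7_co.TwentyFive
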